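import Pool.Agent.N728.QU.AllG

set_option autoImplicit false

/-!
# `n = p + 2 m²` for almost all `n` of the form `c + 2 h²`

For every odd integer `c` with few small prime factors, `|c| ≤ K H²`, and all but at most `ε H` of the `h ≤ H`, the number
of the representations of `n = c + 2 h²` as `p + 2 m²`, `p` prime, `m ≥ 1`, is the number predicted by Hardy and
Littlewood; for `c = 1`, for example, the numbers `n = 2 h² + 1`.

Proof (`Agent/N728/QU`): `n - 2 m² = c ∓ u v` with `u = |m - h|`, `v = 2 (m + h)`, so `v ∓ 2 u = 4 h`. Bilinear sums over `c ± u v` with an arbitrary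
bounded function of `v ∓ 2 u` do not change if a divisor of `u v`, composed of primes of a suitable range, is moved from
`u` to `v`; by the multiplication table phenomenon of Erdős few multiplicative windows contain such a divisor, and the
off-diagonal terms are bounded by two applications of the Cauchy-Schwarz inequality and the fundamental lemma of the sieve
(functions with mean zero on the cells (residue class and block)). For the functions constant on the cells the range is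
shifted, by moving divisors again, to `u ≤ v / (log v)^C`, where the theorem of Bombieri and Vinogradov at the sharp level
applies. All this is uniform in `c`.
-/

namespace Pool.Agent.Results.MP_6b8fc7_nt.ThinSequences

open Finset

/-- `c` has few small prime factors beyond `s₀`: `∑_{p ∣ c, p > s} 1/p ≤ 1/√s` for all `s ≥ s₀`. -/
def Tame (s₀ : ℕ) (c : ℤ) : Prop :=
  c ≠ 0 ∧ ∀ s : ℕ, s₀ ≤ s → ∑ p ∈ c.natAbs.primeFactors.filter (fun p => s < p), 1 / (p : ℝ) ≤ 1 / √(s : ℝ)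

/-- Every fixed `c ≠ 0`, for example `c = 1`, satisfies the condition with `s₀ = |c|`. -/
theorem tame_natAbs (c : ℤ) (h : c ≠ 0) : Tame c.natAbs c := by
  refine ⟨h, fun s hs => ?_⟩
  have h1 : c.natAbs.primeFactors.filter (fun p => s < p) = ∅ := by
    rw [filter_eq_empty_iff]
    intro p hp hsp
    have := Nat.le_of_mem_primeFactors hp
    omega
  rw [h1, sum_empty]
  positivity

/-- The number of the integers `x ≥ 1` for which `n - 2 x²` is a (positive) prime. -/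
noncomputable def rep (n : ℤ) : ℕ := ((Icc 1 n.natAbs).filter (fun x : ℕ => (n - 2 * x ^ 2).toNat.Prime)).card

/-- The sum of `1 / log (n - 2 x²)` over the `x ≥ 1` with `n - 2 x² ≥ 2`. -/
noncomputable def logSum (n : ℤ) : ℝ :=
  ∑ x ∈ (Icc 1 n.natAbs).filter (fun x : ℕ => 2 ≤ n - 2 * x ^ 2), 1 / Real.log ((n - 2 * x ^ 2 : ℤ) : ℝ)

/-- The number of the solutions of `2 x² ≡ n` modulo `p`. -/
def omega (n : ℤ) (p : ℕ) : ℕ := ((range p).filter (fun x : ℕ => (p : ℤ) ∣ n - 2 * x ^ 2)).card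

/-- The product of Hardy and Littlewood over the primes `p ≤ Z`. -/
noncomputable def series (n : ℤ) (Z : ℕ) : ℝ :=
  ∏ p ∈ (Ioc 0 Z).filter Nat.Prime, (1 - (omega n p : ℝ) / p) / (1 - 1 / (p : ℝ))

/-- The conclusion for one `n`: the product is at least `κ`, and the number of representations is the expected one up to
`δ H / log H`. -/
def Good (κ δ : ℝ) (H Z : ℕ) (n : ℤ) : Prop :=
  κ ≤ series n Z ∧ |(rep n : ℝ) - series n Z * logSum n| ≤ δ * (H / Real.log H)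

open Classical in
/-- The number of the `1 ≤ h ≤ H` for which the conclusion fails for `n = c + 2 h²`. -/
noncomputable def exceptions (κ δ : ℝ) (c : ℤ) (H Z : ℕ) : ℕ :=
  ((Icc 1 H).filter (fun h : ℕ => ¬ Good κ δ H Z (c + 2 * h ^ 2))).card

lemma Vg_eq (c : ℤ) (h m : ℕ) : Pool.Agent.N728.QU.Vg 2 0 (-1) c h m = c + 2 * h ^ 2 - 2 * m ^ 2 := by
  unfold Pool.Agent.N728.QU.Vg
  ring

lemma adg {c : ℤ} (hc : Odd c) : Pool.Agent.N728.QU.Adg 2 0 c := by
  have h2 : ¬ (2 : ℤ) ∣ c := fun h => (Int.not_even_iff_odd.2 hc) (even_iff_two_dvd.2 h)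
  refine ⟨fun p hp h1 _ h3 => ?_, fun _ => h2⟩
  have h4 : p ∣ 2 := by exact_mod_cast h1
  rcases (Nat.dvd_prime Nat.prime_two).1 h4 with h5 | h5
  · exact hp.one_lt.ne' h5
  · rw [h5] at h3
    exact h2 (by exact_mod_cast h3)

/-- positive values occur only for `x ≤ L`, whenever `|n| ≤ L²` -/
lemma range_eq (n : ℤ) (L : ℕ) (hL : n.natAbs ≤ L ^ 2) (P : ℤ → Prop) [DecidablePred P] (hP : ∀ v, P v → 2 ≤ v) :
    (Icc 1 n.natAbs).filter (fun x : ℕ => P (n - 2 * x ^ 2)) = (Icc 1 L).filter (fun x : ℕ => P (n - 2 * x ^ 2)) := by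
  ext x
  simp only [mem_filter, mem_Icc]
  constructor
  · rintro ⟨⟨h1, h2⟩, h3⟩
    refine ⟨⟨h1, ?_⟩, h3⟩
    have h4 := hP _ h3
    by_contra hcon
    push Not at hcon
    have h5 : (n : ℤ) ≤ (L : ℤ) ^ 2 := by
      have : (n.natAbs : ℤ) ≤ (L : ℤ) ^ 2 := by exact_mod_cast hL
      have := Int.le_natAbs (a := n)
      omega
    have h6 : (L : ℤ) + 1 ≤ x := by exact_mod_cast hcon
    nlinarith
  · rintro ⟨⟨h1, h2⟩, h3⟩
    refine ⟨⟨h1, ?_⟩, h3⟩
    have h4 := hP _ h3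
    have h7 : (1 : ℤ) ≤ x := by exact_mod_cast h1
    have h8 : (x : ℤ) ≤ n := by nlinarith
    have := Int.le_natAbs (a := n)
    omega

/-- **Theorem.** -/
theorem result (s₀ : ℕ) :
    ∀ ε : ℝ, 0 < ε → ∃ κ : ℝ, 0 < κ ∧ ∀ (δ : ℝ) (K : ℕ), 0 < δ → ∃ Z₀ : ℕ, ∀ A : ℕ, ∃ H₀ : ℕ, ∀ H : ℕ, H₀ ≤ H →
      ∀ (c : ℤ) (Z : ℕ), Tame s₀ c → Odd c → c.natAbs ≤ K * H ^ 2 → Z₀ ≤ Z → (Z : ℝ) ≤ Real.log H ^ A →
      (exceptions κ δ c H Z : ℝ) ≤ ε * H := by
  classical
  intro ε hε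
  obtain ⟨κ, hκ, h1⟩ := Pool.Agent.N728.QU.finalGU 2 0 (by norm_num) s₀ ε hε
  refine ⟨κ, hκ, fun δ K hδ => ?_⟩
  obtain ⟨Z₀, h2⟩ := h1 δ (K + 2) hδ
  refine ⟨Z₀, fun A => ?_⟩
  obtain ⟨H₀, h3⟩ := h2 A
  refine ⟨H₀, fun H hH c Z hc hodd hcK hZ1 hZ2 => ?_⟩
  have h4 := h3 H hH Z c (-1) hc (adg hodd) (Or.inr rfl)
    (hcK.trans (Nat.mul_le_mul_right _ (Nat.le_add_right K 2))) hZ1 hZ2
  refine le_trans ?_ h4
  unfold exceptions
  rw [Nat.cast_le]
  apply card_le_card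
  intro h hh
  rw [mem_filter] at hh ⊢
  refine ⟨hh.1, fun hcon => hh.2 ?_⟩
  obtain ⟨g1, g2⟩ := hcon
  have hhH : h ≤ H := (mem_Icc.1 hh.1).2
  have hh1 : 1 ≤ h := (mem_Icc.1 hh.1).1
  have hn : (c + 2 * (h : ℤ) ^ 2).natAbs ≤ ((K + 2) * H) ^ 2 := by
    have e1 : (c + 2 * (h : ℤ) ^ 2).natAbs ≤ c.natAbs + 2 * h ^ 2 := by
      refine (Int.natAbs_add_le _ _).trans (le_of_eq ?_)
      congr 1
    have e2 : 2 * h ^ 2 ≤ 2 * H ^ 2 := by nlinarith
    have e3 : K * H ^ 2 + 2 * H ^ 2 ≤ ((K + 2) * H) ^ 2 := by nlinarith [Nat.zero_le (K * H ^ 2), Nat.zero_le (K ^ 2 * H ^ 2)]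
    omega
  have g3 := g2 ((K + 2) * H) le_rfl
  unfold Pool.Agent.N728.QU.cntg at g3
  simp only [Vg_eq] at g3
  have hser : series (c + 2 * h ^ 2) Z = Pool.Agent.N728.QU.Sqg 2 0 (-1) c h Z := by
    unfold series Pool.Agent.N728.QU.Sqg omega
    simp only [Vg_eq]
  have hrep : rep (c + 2 * h ^ 2) =
      ((Icc 1 ((K + 2) * H)).filter (fun x : ℕ => (c + 2 * h ^ 2 - 2 * (x : ℤ) ^ 2).toNat.Prime)).card := by
    unfold rep
    rw [range_eq (c + 2 * h ^ 2) ((K + 2) * H) hn (fun v => v.toNat.Prime)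
      (fun v hv => by have := hv.two_le; omega)]
  have hlog : logSum (c + 2 * h ^ 2) = ∑ m ∈ (Icc 1 ((K + 2) * H)).filter
      (fun m : ℕ => 2 ≤ c + 2 * h ^ 2 - 2 * (m : ℤ) ^ 2),
        1 / Real.log ((c + 2 * h ^ 2 - 2 * (m : ℤ) ^ 2 : ℤ) : ℝ) := by
    unfold logSum
    rw [range_eq (c + 2 * h ^ 2) ((K + 2) * H) hn (fun v => 2 ≤ v) (fun v hv => hv)]
  unfold Good
  rw [hser, hrep, hlog]
  exact ⟨g1, g3⟩

end Pool.Agent.Results.MP_6b8fc7_nt.ThinSequences
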